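import Pool.Agent.R755.KF.Fin

/-!
# The KLS inequality is stable under adding and removing boundedly many dimensions

Q1, for sets `S` of measure one half, for the laws of all linear images (marginals, in any
dimension) of the uniform measures on the bodies of a class `Tower` which is closed under the
following operations, where `K` is a convex body:
* (`fibred`) if all fibres (parallel sections) `K_t = {x | (x, t) ∈ K}`, `t ∈ ℝ^j`, `j ≤ d`, of
  `K ⊂ ℝ^N × ℝ^j` which have positive volume belong to the class, then `K` belongs to the class. The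
  fibres may be completely different from each other; there is no condition on the way in which they
  depend on `t`, except for the convexity of `K`. The constant does not depend on `N`;
* (`lift`) if one projection of `K`, with a kernel of dimension at most `r`, belongs to the class,
  then `K` belongs to the class;
* (`image`) the images of the bodies of the class under affine maps with kernels of dimension at
  most `r` belong to the class.

The class contains the convex bodies with a Poincaré inequality with constant `c₀` in isotropic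
position (`PoincareBody`; for instance all images of the bodies with the symmetries of the cube,
with an absolute constant), polytopes with at most `m + q` facets, `ℓ_p` balls and their sections of
codimension `q` (`Section`). The starting files have the case of images (`ImagesOfSections`);
`FibredBodies` had fibrations all fibres of which are images of each other under maps which are
diagonal in uncorrelated coordinates.

Special cases, with constants which depend only on the parameters which are named: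
* `fewFacets`: all convex bodies in `ℝ^N × ℝ^d` whose fibres over `ℝ^d` are polytopes with at most
  `N + q` facets (slabs are counted once), for instance simplices or parallelepipeds;
* `cutPolytopes`: all convex bodies `{z ∈ P | π z ∈ C}`, where `P ⊂ ℝⁿ` is a polytope with at most
  `n + q` facets, `π : ℝⁿ → ℝ^d` a linear map and `C ⊂ ℝ^d` an arbitrary convex set;
* `cubeSymmetricFibres`: all convex bodies in `ℝ^N × ℝ^d` whose fibres over `ℝ^d` are affine images
  of bodies with the symmetries of the cube; the bodies and the maps may depend on the fibre.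

Method. Let `T` be a linear map on `K ⊂ ℝ^N × ℝ^d` with covariance at most `s`. For a fibre `K_t`
let `Y_t = T(x, t) + √h Z`, with `x` uniform in `K_t`, `Z` Gaussian and `h = C s` much larger than
the variances. (1) For two fibres `a, b` with the fibre `m` half way between them, the
Prékopa-Leindler inequality gives `Z_m² ≥ Z_a Z_b exp(h ‖∇σ‖²)` for the densities of `Y`, where
`σ = log(Z_b / Z_a) / 2` (the densities times the inverse of the Gaussian are log-convex). So for
the angle `ω` with `sin ω = tanh σ`: `h E‖∇ω‖² ≤ 2 η + E ω²`, if `|K_m| ≤ (1 + η) √(|K_a| |K_b|)`.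
(2) `Var ω(Y) ≤ (3/4 + small) h E‖∇ω‖² + C h ‖E ∇ω‖² + small`, by an improved Poincaré inequality for
the Gaussian and a weak Poincaré inequality for the fibre, and `E ∇ω` is controlled by the distance of
the means, which is at most `C √s ≪ √h` (Stein's identity). So `E ω²` is small if it is at most
`1 / 100`, and by continuity in `h` (it is small for `h → ∞`) it is small. (3) So the means of a
Lipschitz function of `Y_t` on neighbouring fibres are close, and a bounded number of steps leads to
all fibres but a small part. (4) This gives concentration for the Lipschitz functions of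
`T z + √h Z`, `z` uniform in `K`; the conditional expectation of a Lipschitz function of `T z` is
Lipschitz, with small conditional variance, by the Prékopa-Leindler inequality again. (5) Concentration
implies a weak Poincaré inequality (heat flow), which is what (2) needs, so that the argument can be
iterated; and it implies the isoperimetric inequality for sets of measure one half. (6) A convex body
over a body of the class with fibres of dimension at most `r`: the marginal has a concave density
relative to the uniform measure (one dimension at a time), and the part of `T z` uncorrelated with the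
base has a bounded total variance.

Formalised by the team (helpers 62, 141, 159, 168, 193, 258, 339, 422, 515, 560, 589, 600, 683, 711,
746, 754, 755, 834, 916, 962) with the starting library.
-/

set_option autoImplicit false

namespace Pool.Agent.Results.MP_6d896a_gt.Towers

open MeasureTheory Set
open scoped ENNReal InnerProductSpace

/-- Euclidean space of dimension `n` -/
abbrev Euc (n : ℕ) : Type := EuclideanSpace ℝ (Fin n)

/-- convex body `D = -D`: compact, convex, symmetric, with nonempty interior -/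
structure SymmetricBody {k : ℕ} (D : Set (Euc k)) : Prop where
  conv : Convex ℝ D
  comp : IsCompact D
  int : (interior D).Nonempty
  symm : ∀ x ∈ D, -x ∈ D

/-- `a (s₊)^p + b (s₋)^p`, where `a, b ∈ [0, ∞]` and `∞ · 0 = 0` -/
noncomputable def power (p : ℝ) (a b : ℝ≥0∞) (s : ℝ) : ℝ≥0∞ :=
  a * ENNReal.ofReal (max s 0 ^ p) + b * ENNReal.ofReal (max (-s) 0 ^ p)

/-- `K = {x | ⟪v_i, x⟫ ∈ I_i for all i < N}` with closed intervals `I_i` (which may be unbounded),
`N ≤ m + q`: intersections of `m + q` halfspaces or slabs in `ℝ^m` -/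
def Slabs (q : ℕ) {m : ℕ} (K : Set (Euc m)) : Prop :=
  ∃ (N : ℕ) (v : Fin N → Euc m) (I : Fin N → Set ℝ), N ≤ m + q ∧ (∀ i, IsClosed (I i)) ∧
    (∀ i, (I i).OrdConnected) ∧ K = {x | ∀ i, ⟪v i, x⟫_ℝ ∈ I i}

/-- `K = {x | ∑_{i < N} (a_i ⟪v_i, x⟫₊^p + b_i ⟪v_i, x⟫₋^p) ≤ 1}`, `a_i, b_i ∈ [0, ∞]`, `N ≤ m + q` -/
def Sums (p : ℝ) (q : ℕ) {m : ℕ} (K : Set (Euc m)) : Prop :=
  ∃ (N : ℕ) (v : Fin N → Euc m) (a b : Fin N → ℝ≥0∞), N ≤ m + q ∧
    K = {x | ∑ i, power p (a i) (b i) ⟪v i, x⟫_ℝ ≤ 1}

/-- `K = {x | ∑_{j < k_i} |ℓ_ij(x)|^{e_ij} ≤ 1 for all i < M}`, `e_ij ≥ 2`, `∑ k_i ≤ m + q` -/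
def Powers (q : ℕ) {m : ℕ} (K : Set (Euc m)) : Prop :=
  ∃ (M : ℕ) (k : Fin M → ℕ) (e : ∀ i, Fin (k i) → ℝ) (l : ∀ i, Fin (k i) → (Euc m →ₗ[ℝ] ℝ)),
    (∀ i, 1 ≤ k i) ∧ ∑ i, k i ≤ m + q ∧ (∀ i j, 2 ≤ e i j) ∧
    K = {x | ∀ i, ∑ j, |l i j x| ^ e i j ≤ 1}

/-- `K = {x | Q_i x ∈ D_i for all i < M}` with linear maps `Q_i : ℝ^m → ℝ^{k_i}` and symmetric convex
bodies `D_i`, `k_i ≤ B`, `∑ k_i ≤ m + q` -/
def Blocks (B q : ℕ) {m : ℕ} (K : Set (Euc m)) : Prop :=
  ∃ (M : ℕ) (k : Fin M → ℕ) (Q : ∀ i, Euc m →ₗ[ℝ] Euc (k i)) (D : ∀ i, Set (Euc (k i))),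
    (∀ i, k i ≤ B) ∧ ∑ i, k i ≤ m + q ∧ (∀ i, SymmetricBody (D i)) ∧ K = {x | ∀ i, Q i x ∈ D i}

/-- the bodies at the bottom of the construction: bounded, with nonempty interior, and of one of the
four kinds `Slabs`, `Sums`, `Powers`, `Blocks`, with at most `q` functionals more than the
dimension (for instance cubes, Euclidean balls, simplices, polytopes with few facets) -/
structure Section (B q : ℕ) (p : ℝ) {m : ℕ} (K : Set (Euc m)) : Prop where
  bdd : Bornology.IsBounded K
  int : (interior K).Nonempty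
  rep : Slabs q K ∨ Sums p q K ∨ Powers q K ∨ Blocks B q K

/-- the uniform probability measure on `K` -/
noncomputable def unif {n : ℕ} (K : Set (Euc n)) : Measure (Euc n) :=
  (volume K)⁻¹ • volume.restrict K

/-- convex bodies which satisfy the Poincaré inequality `Var f ≤ c₀ E ‖∇ f‖²`, for all `C¹` functions,
in isotropic position: after some linear bijection `A` which makes all variances of the coordinates
in directions of length one equal to one -/
structure PoincareBody (c₀ : ℝ) {N : ℕ} (C : Set (Euc N)) : Prop where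
  comp : IsCompact C
  conv : Convex ℝ C
  int : (interior C).Nonempty
  ineq : ∃ A : Euc N ≃ₗ[ℝ] Euc N,
    (∀ θ : Euc N, ProbabilityTheory.variance (fun x => ⟪A x, θ⟫_ℝ) (unif C) = ‖θ‖ ^ 2) ∧
    ∀ f : Euc N → ℝ, ContDiff ℝ 1 f → ProbabilityTheory.variance (fun x => f (A x)) (unif C) ≤
      c₀ * ∫ x, ‖fderiv ℝ f (A x)‖ ^ 2 ∂(unif C)

/-- the fibre over `t` of the set `K ⊂ ℝⁿ ≅ ℝ^N × ℝ^d` -/
def fibre {N d n : ℕ} (e : (Euc N × Euc d) ≃ₗ[ℝ] Euc n) (K : Set (Euc n)) (t : Euc d) :
    Set (Euc N) := {x | e (x, t) ∈ K}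

/-- The class of bodies. It contains the bodies `Section B q p` and `PoincareBody c₀`, and bodies of
depth `h + 1` are obtained from those of depth `h` by images under affine maps with kernels of
dimension at most `r` (`image`), by adding at most `r` dimensions (`lift`: all convex bodies `K` with a
linear image, under a map with a kernel of dimension at most `r`, of depth `h`) and by fibration over a
base of dimension at most `d` (`fibred`): all convex bodies `K ⊂ ℝ^N × ℝ^j`, `j ≤ d`, whose fibres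
over the points of `ℝ^j` are of depth `h` or of volume zero. -/
inductive Tower (q B : ℕ) (p c₀ : ℝ) (d r : ℕ) : ℕ → ∀ {n : ℕ}, Set (Euc n) → Prop
  | base {m : ℕ} {K : Set (Euc m)} : Section B q p K → Tower q B p c₀ d r 0 K
  | poincare {m : ℕ} {K : Set (Euc m)} : PoincareBody c₀ K → Tower q B p c₀ d r 0 K
  | up {h n : ℕ} {K : Set (Euc n)} : Tower q B p c₀ d r h K → Tower q B p c₀ d r (h + 1) K
  | image {h m n : ℕ} {K : Set (Euc m)} (T : Euc m →ᵃ[ℝ] Euc n) : m ≤ n + r →
      Function.Surjective T → Tower q B p c₀ d r h K → Tower q B p c₀ d r (h + 1) (T '' K)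
  | lift {h m n : ℕ} {K : Set (Euc m)} (T : Euc m →ₗ[ℝ] Euc n) : m ≤ n + r →
      Function.Surjective T → IsCompact K → Convex ℝ K → (interior K).Nonempty →
      Tower q B p c₀ d r h (T '' K) → Tower q B p c₀ d r (h + 1) K
  | fibred {h N j n : ℕ} {K : Set (Euc n)} (e : (Euc N × Euc j) ≃ₗ[ℝ] Euc n) : j ≤ d →
      IsCompact K → Convex ℝ K → (interior K).Nonempty →
      (∀ t, volume (fibre e K t) ≠ 0 → Tower q B p c₀ d r h (fibre e K t)) →
      Tower q B p c₀ d r (h + 1) K

/-- the boundary measure `μ⁺(S)`, the lower limit of `(μ(S_ε) - μ(S)) / ε` for the open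
neighbourhoods `S_ε` of `S` -/
noncomputable def bdry {n : ℕ} (μ : Measure (Euc n)) (S : Set (Euc n)) : ℝ≥0∞ :=
  Filter.liminf (fun ε : ℝ => (μ (Metric.thickening ε S) - μ S) / ENNReal.ofReal ε)
    (nhdsWithin 0 (Set.Ioi 0))

/-- `μ⁺(S) √s ≥ c min(μ S, μ Sᶜ)` for all measurable sets `S` of measure one half and for every bound
`s` of the variances of the marginals of `μ` in directions of length one -/
def KLSHalf {n : ℕ} (c : ℝ) (μ : Measure (Euc n)) : Prop :=
  ∀ s : ℝ, 0 < s →
    (∀ θ : Euc n, ‖θ‖ = 1 → ProbabilityTheory.variance (fun x => ⟪x, θ⟫_ℝ) μ ≤ s) →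
    ∀ S : Set (Euc n), MeasurableSet S → μ S = 1 / 2 →
      ENNReal.ofReal (c / Real.sqrt s) * min (μ S) (μ Sᶜ) ≤ bdry μ S

/-- all linear images `μ` of the uniform measure on `K` satisfy `KLSHalf c μ` -/
def ImagesKLS {m : ℕ} (c : ℝ) (K : Set (Euc m)) : Prop :=
  ∀ (n : ℕ) (L : Euc m →ₗ[ℝ] Euc n) (μ : Measure (Euc n)), μ = Measure.map L (unif K) →
    IsProbabilityMeasure μ ∧ KLSHalf c μ

theorem base_of {B q : ℕ} {p : ℝ} {m : ℕ} {K : Set (Euc m)} (h : Section B q p K) :
    Pool.Agent.Y506.PV.Base q B p K := by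
  refine ⟨h.bdd, h.int, ?_⟩
  rcases h.rep with h | h | h | h
  · obtain ⟨N, v, I, hN, hI1, hI2, hK⟩ := h
    exact Or.inl ⟨N, hN, v, I, hI1, hI2, hK⟩
  · obtain ⟨N, v, a, b, hN, hK⟩ := h
    exact Or.inr (Or.inl ⟨N, hN, v, a, b, hK⟩)
  · obtain ⟨M, k, e, l, hk, hs, he, hK⟩ := h
    refine Or.inr (Or.inr (Or.inl ⟨M, k, hs, hk, e, fun i j =>
      LinearMap.toContinuousLinearMap (l i j), he, ?_⟩))
    rw [hK]
    rfl
  · obtain ⟨M, k, Q, D, hk, hs, hD, hK⟩ := h
    refine Or.inr (Or.inr (Or.inr ⟨M, k, hs, hk, fun i => LinearMap.toContinuousLinearMap (Q i),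
      D, fun i => ⟨(hD i).comp.measurableSet, (hD i).conv, (hD i).comp.isBounded, (hD i).symm,
        (hD i).int⟩, fun i => (hD i).comp.isClosed, ?_⟩))
    rw [hK]
    rfl

theorem var_eq {n : ℕ} {K : Set (Euc n)} (hK : IsCompact K) (hi : (interior K).Nonempty)
    {f : Euc n → ℝ} (hf : Continuous f) : ProbabilityTheory.variance f (unif K) =
      (∫ x, f x ^ 2 ∂(unif K)) - (∫ x, f x ∂(unif K)) ^ 2 := by
  have h0 : volume K ≠ 0 := Pool.Agent.R755.KF.vol_ne hi
  have hp : IsProbabilityMeasure (unif K) :=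
    Pool.Agent.R754.KG.un_prob h0 hK.measure_lt_top.ne
  have h2 : Integrable (fun x => f x ^ 2) (unif K) :=
    Pool.Agent.R754.KG.un_int h0 hK.isBounded (hf.pow 2)
  rw [ProbabilityTheory.variance_eq_sub
    ((memLp_two_iff_integrable_sq hf.aestronglyMeasurable).2 h2)]
  rfl

theorem pi_of {c₀ : ℝ} {N : ℕ} {C : Set (Euc N)} (h : PoincareBody c₀ C) :
    Pool.Agent.R755.KF.PI c₀ C := by
  obtain ⟨A, h1, h2⟩ := h.ineq
  have hAc : Continuous A := A.toLinearMap.continuous_of_finiteDimensional
  refine ⟨h.comp, h.conv, h.int, A, fun θ => ?_, fun f hf => ?_⟩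
  · have h3 := h1 θ
    rw [var_eq h.comp h.int (by fun_prop)] at h3
    exact h3
  · have h3 := h2 f hf
    rw [var_eq h.comp h.int (f := fun x => f (A x)) (hf.continuous.comp hAc)] at h3
    exact h3

theorem of_pi {c₀ : ℝ} {N : ℕ} {C : Set (Euc N)} (h : Pool.Agent.R755.KF.PI c₀ C) :
    PoincareBody c₀ C := by
  obtain ⟨A, h1, h2⟩ := h.poi
  have hAc : Continuous A := A.toLinearMap.continuous_of_finiteDimensional
  refine ⟨h.comp, h.conv, h.int, A, fun θ => ?_, fun f hf => ?_⟩
  · rw [var_eq h.comp h.int (by fun_prop)]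
    exact h1 θ
  · rw [var_eq h.comp h.int (f := fun x => f (A x)) (hf.continuous.comp hAc)]
    exact h2 f hf

theorem cm_of {q B : ℕ} {p c₀ : ℝ} {d r h n : ℕ} {K : Set (Euc n)} (H : Tower q B p c₀ d r h K) :
    Pool.Agent.R755.KF.Cm q B p c₀ d r h n K := by
  induction H with
  | base hK => exact .base _ _ (base_of hK)
  | poincare hK => exact .poinc _ _ (pi_of hK)
  | up _ ih => exact .up _ _ _ ih
  | image T hm hT _ ih =>
    have hTL : ∀ x, T x = T 0 + T.linear x := fun x => by
      have h := T.map_vadd 0 x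
      rw [vadd_eq_add, add_zero] at h
      rw [h, vadd_eq_add, add_comm]
    have hA : Function.Surjective T.linear := by
      rwa [AffineMap.linear_surjective_iff]
    have h2 := Pool.Agent.R755.KF.Cm.image _ _ _ _ T.linear (T 0) hm hA ih
    rw [image_congr fun x _ => hTL x]
    exact h2
  | lift T hm hT h1 h2 h3 _ ih => exact .lift _ _ _ _ T hm hT h1 h2 h3 ih
  | fibred e hj hc hcv hi _ ih => exact .fibred _ _ _ _ _ e hj hc hcv hi ih

/-- from the functional inequality to all linear images -/
theorem images_of {m : ℕ} {K : Set (Euc m)} (hK : IsCompact K) (hi : (interior K).Nonempty)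
    {c : ℝ} (hc : 0 < c) (hs : Pool.Agent.Y506.RG.Star c (Pool.Agent.Y506.PV.ind K)) (n : ℕ)
    (L : Euc m →ₗ[ℝ] Euc n) : IsProbabilityMeasure (Measure.map L (unif K)) ∧
      KLSHalf (1 / (4 * c)) (Measure.map L (unif K)) := by
  have hA := Pool.Agent.Y506.PV.adm_ind K hK.measurableSet hK.isBounded
    (Pool.Agent.Y506.PV.vol_pos hi)
  have h := Pool.Agent.Y506.RG.half_of_star Pool.Agent.Y429.RG.minkm hA c hc hs n L
    (Measure.map L (Pool.Agent.Y506.RG.pm (Pool.Agent.Y506.PV.ind K))) rfl
  rw [Pool.Agent.Y506.PV.pm_ind K hK.measurableSet] at h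
  obtain ⟨hp, H⟩ := h
  have hp' : IsProbabilityMeasure (Measure.map L (unif K)) := hp
  refine ⟨hp', fun s hs hvar S hS hS2 => ?_⟩
  refine le_trans ?_ (H s hs hvar S hS2)
  calc _ ≤ ENNReal.ofReal (1 / (4 * c) / Real.sqrt s) * 1 :=
        mul_le_mul_right ((min_le_left _ _).trans prob_le_one) _
    _ = _ := mul_one _

/-- **KLS for towers of fibrations, and their marginals.** For all `q, B, d, r, h`, `p ≥ 1` and
`c₀ > 0` there is a constant `c > 0` such that for all `m`, all bodies `K ⊂ ℝ^m` of the class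
`Tower q B p c₀ d r h` and all linear maps `L : ℝ^m → ℝⁿ`, the law `μ` of `L x`, `x` uniform on `K`,
is a probability measure with `μ⁺(S) √‖A‖ ≥ c min(μ S, μ Sᶜ)` for all measurable `S` with
`μ S = 1/2`, where `A` is the covariance matrix of `μ`. -/
theorem result : ∀ (q B d r h : ℕ) (p c₀ : ℝ), 1 ≤ p → 0 < c₀ → ∃ c : ℝ, 0 < c ∧
    ∀ (m : ℕ) (K : Set (Euc m)), Tower q B p c₀ d r h K → ImagesKLS c K := by
  intro q B d r h p c₀ hp hc₀
  obtain ⟨c, hc, H⟩ := Pool.Agent.R755.KF.cm_starR q B p c₀ hp hc₀ d r h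
  refine ⟨1 / (4 * c), by positivity, fun m K hK n L μ hμ => ?_⟩
  obtain ⟨h1, h2, h3, h4⟩ := H m K (cm_of hK)
  rw [hμ]
  exact images_of h1 h3 hc h4 n L

/-! ### special cases -/

/-- **Fibres with few facets.** For all `q`, `d` there is `c > 0` such that all convex bodies
`K ⊂ ℝⁿ ≅ ℝ^N × ℝ^d`, of any dimension, whose fibres over the points of `ℝ^d` are (of volume zero or)
intersections of at most `N + q` slabs or halfspaces satisfy the inequality, with all their linear
images. -/
theorem fewFacets : ∀ q d : ℕ, ∃ c : ℝ, 0 < c ∧ ∀ (N n : ℕ) (e : (Euc N × Euc d) ≃ₗ[ℝ] Euc n)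
    (K : Set (Euc n)), IsCompact K → Convex ℝ K → (interior K).Nonempty →
    (∀ t, volume (fibre e K t) = 0 ∨ Slabs q (fibre e K t)) → ImagesKLS c K := by
  intro q d
  obtain ⟨c, hc, H⟩ := result q 0 d 0 1 1 1 le_rfl one_pos
  refine ⟨c, hc, fun N n e K h1 h2 h3 h4 => H n K (.fibred e le_rfl h1 h2 h3 fun t ht => ?_)⟩
  exact .base ⟨Pool.Agent.R755.KF.fib_bdd e h1 t, Pool.Agent.R755.KF.fib_int e h2 t ht,
    Or.inl ((h4 t).resolve_left ht)⟩

theorem slabs_fibre {q N d n : ℕ} (e : (Euc N × Euc d) ≃ₗ[ℝ] Euc n) {P : Set (Euc n)}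
    (hP : Slabs q P) (t : Euc d) : Slabs (q + d) (fibre e P t) := by
  obtain ⟨M, v, I, hM, hI1, hI2, rfl⟩ := hP
  have hn : N + d = n := by
    have := e.finrank_eq
    simpa using this
  have hc : Continuous e := e.toLinearMap.continuous_of_finiteDimensional
  let A : Euc N →L[ℝ] Euc n := LinearMap.toContinuousLinearMap
    (e.toLinearMap ∘ₗ LinearMap.inl ℝ (Euc N) (Euc d))
  have hA : ∀ x, e (x, t) = A x + e (0, t) := by
    intro x
    change e (x, t) = e (x, 0) + e (0, t)
    rw [← map_add]
    simp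
  refine ⟨M, fun i => ContinuousLinearMap.adjoint A (v i),
    fun i => {s | s + ⟪v i, e (0, t)⟫_ℝ ∈ I i}, by omega, fun i => ?_, fun i => ?_, ?_⟩
  · exact (hI1 i).preimage (by fun_prop : Continuous fun s : ℝ => s + ⟪v i, e (0, t)⟫_ℝ)
  · refine ⟨fun a ha b hb s hs => (hI2 i).out ha hb ⟨?_, ?_⟩⟩
    · linarith [hs.1]
    · linarith [hs.2]
  · ext x
    refine forall_congr' fun i => ?_
    change ⟪v i, e (x, t)⟫_ℝ ∈ I i ↔
      ⟪ContinuousLinearMap.adjoint A (v i), x⟫_ℝ + ⟪v i, e (0, t)⟫_ℝ ∈ I i
    rw [hA, inner_add_right, ContinuousLinearMap.adjoint_inner_left]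

/-- **Polytopes cut by cylinders.** For all `q`, `d` there is `c > 0` such that all convex bodies
`{z ∈ P | π z ∈ C}` in `ℝⁿ`, of any dimension, where `P` is an intersection of `n + q` slabs or
halfspaces, `π : ℝⁿ ≅ ℝ^N × ℝ^d → ℝ^d` a linear projection and `C ⊂ ℝ^d` an arbitrary convex set,
satisfy the inequality, with all their linear images. -/
theorem cutPolytopes : ∀ q d : ℕ, ∃ c : ℝ, 0 < c ∧ ∀ (N n : ℕ) (e : (Euc N × Euc d) ≃ₗ[ℝ] Euc n)
    (P : Set (Euc n)) (C : Set (Euc d)), Slabs q P → Convex ℝ C →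
    IsCompact {z | z ∈ P ∧ (e.symm z).2 ∈ C} → (interior {z | z ∈ P ∧ (e.symm z).2 ∈ C}).Nonempty →
    ImagesKLS c {z | z ∈ P ∧ (e.symm z).2 ∈ C} := by
  intro q d
  obtain ⟨c, hc, H⟩ := fewFacets (q + d) d
  refine ⟨c, hc, fun N n e P C hP hC h1 h3 => H N n e _ h1 ?_ h3 fun t => ?_⟩
  · obtain ⟨M, v, I, -, -, hI2, rfl⟩ := hP
    refine Convex.inter (s := {z : Euc n | ∀ i, ⟪v i, z⟫_ℝ ∈ I i})
      (t := {z | (e.symm z).2 ∈ C}) ?_ ?_
    · intro x hx y hy a b ha hb hab i
      have h := (hI2 i).convex (hx i) (hy i) ha hb hab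
      rw [inner_add_right, inner_smul_right, inner_smul_right]
      exact h
    · exact hC.linear_preimage (LinearMap.snd ℝ (Euc N) (Euc d) ∘ₗ e.symm.toLinearMap)
  · by_cases ht : t ∈ C
    · right
      have h : fibre e {z | z ∈ P ∧ (e.symm z).2 ∈ C} t = fibre e P t := by
        ext x
        simp [fibre, ht]
      rw [h]
      exact slabs_fibre e hP t
    · left
      have h : fibre e {z | z ∈ P ∧ (e.symm z).2 ∈ C} t = ∅ := by
        ext x
        simp [fibre, ht]
      rw [h, measure_empty]

/-- sets with the symmetries of the cube: invariant under permutations and sign changes of the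
coordinates -/
def CubeSymmetric {N : ℕ} (C : Set (Euc N)) : Prop :=
  ∀ (σ : Equiv.Perm (Fin N)) (x y : Euc N), (∀ i, |y i| = |x (σ i)|) → x ∈ C → y ∈ C

/-- **Fibres with the symmetries of the cube.** For every `d` there is `c > 0` such that all convex
bodies `K ⊂ ℝⁿ ≅ ℝ^N × ℝ^d`, of any dimension, whose fibres over the points of `ℝ^d` are (of volume
zero or) affine images of compact convex sets with the symmetries of the cube satisfy the
inequality, with all their linear images. -/
theorem cubeSymmetricFibres : ∀ d : ℕ, ∃ c : ℝ, 0 < c ∧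
    ∀ (N n : ℕ) (e : (Euc N × Euc d) ≃ₗ[ℝ] Euc n)
    (K : Set (Euc n)), IsCompact K → Convex ℝ K → (interior K).Nonempty →
    (∀ t, volume (fibre e K t) = 0 ∨ ∃ (D : Set (Euc N)) (M : Euc N ≃ₗ[ℝ] Euc N) (v : Euc N),
      IsCompact D ∧ Convex ℝ D ∧ CubeSymmetric D ∧ fibre e K t = (fun x => v + M x) '' D) →
    ImagesKLS c K := by
  intro d
  obtain ⟨c₀, hc₀, H₀⟩ := Pool.Agent.R755.KF.sym_pi
  obtain ⟨c, hc, H⟩ := result 0 0 d 0 2 1 c₀ le_rfl hc₀
  refine ⟨c, hc, fun N n e K h1 h2 h3 h4 => H n K (.fibred e le_rfl h1 h2 h3 fun t ht => ?_)⟩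
  obtain ⟨D, M, v, hD1, hD2, hD3, hC⟩ := (h4 t).resolve_left ht
  have hDi : (interior D).Nonempty := by
    refine Pool.Agent.R755.KF.int_of_vol hD2 fun h0 => ht ?_
    rw [hC]
    exact Pool.Agent.R755.KF.vol_aff_zero M v h0
  have h5 := Tower.image (q := 0) (B := 0) (p := 1) (c₀ := c₀) (d := d) (r := 0) (h := 0)
    (M.toLinearMap.toAffineMap + AffineMap.const ℝ (Euc N) v) le_rfl (fun y => by
      obtain ⟨z, hz⟩ := M.surjective (y - v)
      exact ⟨z, by simp [hz]⟩) (.poincare (of_pi (H₀ N D hD1 hD2 hDi hD3)))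
  rw [hC]
  convert h5 using 1
  refine image_congr fun x _ => ?_
  simp [add_comm]

end Pool.Agent.Results.MP_6d896a_gt.Towers
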